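import Pool.Agent.MP_94f265_co.MM2.Tail
import Pool.Agent.MP_94f265_co.MM2.Fin
import Pool.Agent.MP_94f265_co.SD.Fin

/-!
# The rectangles `1/k × 1/(k+1)` perfectly pack the unit square
-/

set_option autoImplicit false

namespace Pool.Agent.Results.MP_94f265_co.FullPacking

open Pool.Agent.MM1

/-- The rectangles `R k = 1/k × 1/(k+1)`, `k ≥ 1`, can be moved by orientation-preserving rigid motions
into the closed unit square, with pairwise disjoint interiors, and they cover it up to a set of
measure zero (which is automatic, the total area being one). -/
theorem result : PerfectlyPacks (Set.Ici 1) R (box 1 1) := by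
  obtain ⟨Q, X, Y, h⟩ := Pool.Agent.MMS.SD.start
  exact Pool.Agent.MM2.perfectly_of_full (Pool.Agent.MM2.tail Q X Y h)

end Pool.Agent.Results.MP_94f265_co.FullPacking
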