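import Pool.Agent.MP_94f265_co.MM1.MainR

/-!
# Tails of the family `R_k = 1/k × 1/(k+1)` pack perfectly

The asymptotic form of the Meir-Moser problem at the critical exponent: for every sufficiently large `n`
the rectangles `R_k`, `k ≥ n`, perfectly pack the square of side `1/√n`.  More generally, for
rectangles `x k × y k` with both sides between `1/(k+1)` and `1/k`, `k ≥ n`, and any
container `a × b` of the same total area with aspect ratio at most two.
-/

set_option autoImplicit false

namespace Pool.Agent.Results.MP_94f265_co.TailPacking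

open Pool.Agent.MM1

/-- There is `N` such that for every `n ≥ N`: if `1/(k+1) ≤ x k, y k ≤ 1/k` for all `k ≥ n` and the
rectangle `box a b` has aspect ratio at most `2` and area `∑_{k ≥ n} x k * y k`, then the
rectangles `box (x k) (y k)`, `k ≥ n`, can be perfectly packed into `box a b` by
orientation-preserving rigid motions.  For `x k = 1/k`, `y k = 1/(k+1)` these are the rectangles
`R_k` of the problem and the area is `1/n`. -/
theorem result : ∃ N : ℕ, ∀ n : ℕ, N ≤ n → ∀ x y : ℕ → ℝ,
    (∀ k, n ≤ k → (1 / ((k : ℝ) + 1) ≤ x k ∧ x k ≤ 1 / (k : ℝ)) ∧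
      (1 / ((k : ℝ) + 1) ≤ y k ∧ y k ≤ 1 / (k : ℝ))) →
    ∀ a b : ℝ, 0 < a → 0 < b → a ≤ 2 * b → b ≤ 2 * a →
      HasSum (fun j => x (n + j) * y (n + j)) (a * b) →
      PerfectlyPacks (Set.Ici n) (fun k => box (x k) (y k)) (box a b) :=
  main_general

end Pool.Agent.Results.MP_94f265_co.TailPacking
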